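import Pool.Agent.R70.CY.Lz

/-!
# Mazur's question at the `p`-adic points of Calabi–Yau double covers

`X : w² = f(x₁, …, x_n)`, `n ≥ 2`, where `f` has degree `3` or `4` in each variable, is a double
cover of `(ℙ¹)ⁿ` branched along a divisor of multidegree `(4, …, 4)`: a K3 surface (`n = 2`) or a
Calabi–Yau variety of dimension `n` if the divisor is smooth. Let `K` be a field of characteristic
zero, for example a number field, and let `f` have coefficients in `K`. Let `K → ℚ_p` be a `p`-adic
place of degree one. For a point `P` of `X` over `ℚ_p` let `Z_P` be the intersection of the Zariski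
closures of the sets of `K`-points in the neighbourhoods of `P`.

**Theorem.** For all primes `p` and all `f` over `ℚ_p` there is an open set `U` of points over `ℚ_p`
such that

(1) the points of `X` in `U` are dense in the set of the points of `X` over `ℚ_p` with `w ≠ 0`, if
`f` is nondegenerate (see the definition);

(2) for all fields `K`, all `f` over `K` which are not squares, all embeddings of `K` in `ℚ_p`, and
for all points `P` of `X` over `ℚ_p`: `Z_P = X`, or `P` has a neighbourhood which contains no
`K`-points of `U`. In particular, `Z_P` is empty or `X` for all `P` in `U`.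

The set `U` depends only on `X` over `ℚ_p`, not on `K` or on the `K`-points. (It consists of the
points in a Zariski open set for which the difference of the two points with the same coordinates
`(x₁, …, x_n)` is of infinite order on the curve of genus one in the direction of one of the
variables.)
-/

set_option autoImplicit false

namespace Pool.Agent.Results.MP_f9f755_nt.CalabiYauLocalPoints

open MvPolynomial Pool.Agent.R70.CY

/-- **Mazur's question at the `p`-adic points of Calabi–Yau double covers.** -/
theorem result :
    ∃ (U : ∀ (p : ℕ) [Fact p.Prime] (n : ℕ), MvPolynomial (Fin n) ℚ_[p] →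
        Set ((Fin n → ℚ_[p]) × ℚ_[p])),
    -- (1) the sets are open and dense in the set of points with `w ≠ 0`
    (∀ (p : ℕ) [Fact p.Prime] (n : ℕ) (f : MvPolynomial (Fin n) ℚ_[p]), 2 ≤ n → NonDegenerate f →
      IsOpen (U p n f) ∧
        ∀ P, OnCover f P → P.2 ≠ 0 → P ∈ closure {Q | OnCover f Q ∧ Q ∈ U p n f}) ∧
    -- (2) the local Zariski closures
    ∀ (K : Type) [Field K] [CharZero K] (n : ℕ) (f : MvPolynomial (Fin n) K),
      (∀ j, f.degreeOf j ≤ 4) → ¬ IsSquare f →
      ∀ (p : ℕ) [Fact p.Prime] (σ : K →+* ℚ_[p]) (P : (Fin n → ℚ_[p]) × ℚ_[p]),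
        (localIdeal σ f P = {q | X none ^ 2 - rename some f ∣ q} ∨
          ∃ N ∈ nhds P, ∀ R : (Fin n → K) × K, OnCover f R → image σ R ∈ N →
            image σ R ∉ U p n (map σ f)) ∧
        (P ∈ U p n (map σ f) → localIdeal σ f P = {q | X none ^ 2 - rename some f ∣ q} ∨
          localIdeal σ f P = Set.univ) := by
  refine ⟨fun p _ n f => ⋃ a, Gd f a, fun p _ n f hn hf => ⟨isOpen_iUnion fun a => gd_open f a,
    fun P hP hw => ?_⟩, ?_⟩
  · refine closure_mono ?_ (closure_p hn hf ⟨0, by omega⟩ P hP hw)
    rintro Q ⟨h1, h2⟩
    exact ⟨h1, Set.mem_iUnion.2 ⟨_, h2⟩⟩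
  · intro K _ _ n f hd hf p _ σ P
    have h := lz_main (σ := σ) hd hf P
    refine ⟨h, fun hP => ?_⟩
    rcases h with h | ⟨N, hN, h⟩
    · exact Or.inl h
    · right
      have hU : IsOpen (⋃ a, Gd (map σ f) a) := isOpen_iUnion fun a => gd_open _ a
      refine Set.eq_univ_of_forall fun q => ⟨N ∩ ⋃ a, Gd (map σ f) a,
        Filter.inter_mem hN (hU.mem_nhds hP), fun R hR hRN => ?_⟩
      exact absurd hRN.2 (h R hR hRN.1)

end Pool.Agent.Results.MP_f9f755_nt.CalabiYauLocalPoints
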