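import Pool.Agent.R383.MQ.Claim7
import Pool.Agent.R383.MQ.WDIAG
import Pool.Agent.R383.MQ.MINOR

/-!
# Mazur's question for hypersurfaces of multidegree (2, ..., 2) in products of projective spaces

`K` is a field of characteristic zero (for instance a number field), `L` is a nontrivially normed
field with a homomorphism `σ : K →+* L` of dense range (for instance the completion of `K` at a
place), and `X ⊂ ℙ^{a₁} × … × ℙ^{a_r}` is the hypersurface `F = 0`, where `F` is irreducible over
`K` and quadratic in each of the `r` groups of variables (slots).

The slots `i ≠ j` are *linked* at a point `z` of `X` over an extension of `K` if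

(a) the mixed second differential `d_i d_j F (z)` is not zero on the product of the kernels of the
differentials `d_i F (z)` and `d_j F (z)`, or

(b) for a `K`-point `e` of one of the two slots, which does not lie on the slice of `X` through `z`,
the second point `z'` of intersection of the slice with the line through `z` and `e` has, in the
other slot, a tangent hyperplane which is different from that of `z`.

The point `z` is *good* if in each slot some partial derivative of `F` is not zero at `z`, and any
two slots are connected by a chain of linked slots.  A rational point `y` is *semi-good* if, for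
some slot `j`, either `y` is a nonsingular point of the quadric `Q = {F (·; y) = 0}` in the slot `j`
and the component of `Q` through `y` contains a good geometric point, or `F (·; y) = 0` and some
geometric point which agrees with `y` in the other slots is good.  The other rational points of `X`
form the exceptional set `Exc6 F`.

(1) If the point `x` of `X(L)` is a limit of semi-good rational points, then the local Zariski
closure `Z_x` of `X(K)` at `x` is `X`. Otherwise it is the local Zariski closure at `x` of the
exceptional set.

(2) If the exceptional set is finite, then the `Z_x` take only finitely many values.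

(3) Let `F = ∑_l X_{0,l}² P_l` with `a_0 ≥ 2` and forms `P_l` in the other slots which do not vanish
at the rational points of `X`.  If for each rational point `y` of `X` and each other slot `i` the
matrix of the derivatives of the `P_l` in the slot `i` has rank at least three at `y`, or for some
`e` the vectors of the `P_l(y)`, of the `d_i P_l(y) e` and of the `P_l(e; y)` are linearly
independent, then the exceptional set is empty, and each `Z_x` is `X` or empty.

Idea of the proof.  The fields `∂F/∂x_l ∂_{l'} - ∂F/∂x_{l'} ∂_l` with `l`, `l'` in the same slot, and
their conjugates by the birational involutions given by the second intersection points, are tangent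
to conics over `K` on `X`, so they preserve the ideal of the rational points near a given rational
point. At a good point these fields and their brackets generate the tangent space; hence the
rational points near a good rational point are Zariski dense in `X`.  The rational points near a
semi-good point `y` on the component of its slice are Zariski dense in this component, so there are
good rational points arbitrarily close to `y`.
-/

set_option autoImplicit false

namespace Pool.Agent.Results.MP_f9f755_nt.MultiQuadraticHypersurfaces

open MvPolynomial Pool.Agent.TH178.MZ Pool.Agent.R383.MQ Fn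

/-- **Mazur's question for hypersurfaces of multidegree `(2, …, 2)`.** -/
theorem result (K : Type) [Field K] [CharZero K] (L : Type) [NontriviallyNormedField L]
    (σ : K →+* L) (hσ : DenseRange σ) :
    (∀ (r : ℕ) (a : Fin r → ℕ) (F : MvPolynomial (Idx a) K), IsMultiQuadratic F →
      Irreducible F →
      (∀ x : Idx a → L, Pr x → eval₂ σ x F = 0 →
        (LimitOf σ (ptsK F \ Exc6 F) x →
          locClos σ (ptsK F) x = (Ideal.span {F} : Set (MvPolynomial (Idx a) K))) ∧
        (¬ LimitOf σ (ptsK F \ Exc6 F) x → locClos σ (ptsK F) x = locClos σ (Exc6 F) x)) ∧
      (FiniteMod (Exc6 F) → {J : Set (MvPolynomial (Idx a) K) | ∃ x : Idx a → L, Pr x ∧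
        eval₂ σ x F = 0 ∧ J = locClos σ (ptsK F) x}.Finite)) ∧
    (∀ (r : ℕ) (a : Fin (r + 1) → ℕ) (F : MvPolynomial (Idx a) K), IsMultiQuadratic F →
      Irreducible F → DiagW F → ∀ x : Idx a → L, Pr x →
        locClos σ (ptsK F) x = (Ideal.span {F} : Set (MvPolynomial (Idx a) K)) ∨
        locClos σ (ptsK F) x = Set.univ) := by
  refine ⟨fun r a F hF hirr => ⟨fun x hx _ => claim6 σ hσ hF hirr hx,
    claim6_finite σ hσ hF hirr⟩, ?_⟩
  rintro r a F hF hirr ⟨ha, P, hFP, hP0, hP⟩ x hx
  refine claim6_empty σ hσ hF hirr ?_ hx
  intro y hy hyP
  obtain ⟨h1, h2⟩ := hP y hy hyP
  refine wDIAG sMINOR sHOM ha P F hFP hF hP0 y hy hyP h1 ?_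
  intro i hi
  rcases h2 i hi with ⟨m, hm⟩ | h
  · left
    refine ⟨m 0, m 1, m 2, ?_⟩
    have e : (fun (n : Fin 3) (l : Fin (a 0 + 1)) =>
        eval y (pderiv (⟨i, m n⟩ : Idx a) (P l))) =
        ![fun l : Fin (a 0 + 1) => eval y (pderiv (⟨i, m 0⟩ : Idx a) (P l)),
          fun l => eval y (pderiv (⟨i, m 1⟩ : Idx a) (P l)),
          fun l => eval y (pderiv (⟨i, m 2⟩ : Idx a) (P l))] := by
      funext n
      fin_cases n <;> rfl
    rwa [e] at hm
  · exact Or.inr h

end Pool.Agent.Results.MP_f9f755_nt.MultiQuadraticHypersurfaces
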