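import Pool.Agent.R847.QX.HypB
import Pool.Agent.R847.QX.Prop
import Pool.Agent.R847.QM.Near
import Pool.Agent.R847.QM.Lift
import Pool.Agent.R847.QM.Glob
import Pool.Agent.R847.QM.Cone
import Pool.Agent.R847.QM.Alg
import Pool.Agent.R847.QB.Line
import Pool.Agent.W279.Tri.LocComp

/-!
# Mazur's question and proper maps; hypersurfaces with a linear subspace of codimension two of
high multiplicity (helper847)

`K` is a number field, `L` is a complete nontrivially normed field with a homomorphism
`σ : K →+* L` of dense range (so `L` is the completion of `K` at a place). For a cone `V` of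
`K`-rational points over `X(K)`, `X` a projective variety, and `x ≠ 0` over a point of `X(L)`, the
set `LocIdeal σ V x` is the homogeneous ideal of the local Zariski closure `Z_x`; similarly for
bihomogeneous coordinates. `X` has Mazur's property if there are only finitely many such ideals.

(1) If finitely many proper maps `Xᵢ → X` (given as `Xᵢ ⊆ X × ℙ`) cover the rational points of `X`,
and if all `Xᵢ` have Mazur's property, then `X` has it. (By compactness of the fibres over an
`L`-valued point `x`, the local ideal at `x` is determined by the local ideals at the points above.)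

(2) Let `K = ℚ`, and let `X` be a hypersurface of degree `e + 2` in `ℙᵐ⁺¹`, `m ≥ 4`, `e ≥ 1`, with
a linear subspace `Λ = {y₀ = y₁ = 0}` of codimension two and of multiplicity at least `e`, that is

  `F(y) = ∑ⱼₖ Aⱼₖ(y₀, y₁) uⱼ uₖ = 0`,   `u = (1, y₂, …, yₘ₊₁)`,

with `A₀₀, A₀ⱼ, Aⱼₖ` binary forms of degrees `e + 2, e + 1, e`, such that the residual quadric in the
generic hyperplane through `Λ` is smooth (`det A ≠ 0`). Then `X` has Mazur's property (for every
place). For instance this applies to the quartic hypersurfaces in `ℙⁿ`, `n ≥ 5`, with a double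
linear subspace of codimension two. For the proof `X` is dominated by a quadric bundle over `ℙ¹`
(the blowing-up of `Λ`) of relative dimension at least three; there we use Meyer's theorem.
-/

set_option autoImplicit false

namespace Pool.Agent.Results.MP_f9f755_nt.ProperMaps

open Matrix Pool.Agent.R847.QM Pool.Agent.R847.QX
open Pool.Agent.TH729.CV (IA)
open Pool.Agent.Y720.MZ (FAon mem_IA_iff)

/-- the polynomials which vanish at the points of `D` in some neighbourhood of `x` -/
def LocIdeal {K L : Type} [Field K] [NontriviallyNormedField L] (σ : K →+* L) {τ : Type}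
    (D : Set (τ → K)) (x : τ → L) : Set (MvPolynomial τ K) :=
  {f | ∃ U ∈ nhds x, ∀ y ∈ D, (fun i => σ (y i)) ∈ U → MvPolynomial.eval y f = 0}

/-- the polynomial `∑ⱼₖ Aⱼₖ(y₀, y₁) uⱼ uₖ`, where `u = (1, y₂, …, yₘ₊₁)` -/
noncomputable def form {m : ℕ}
    (A : Matrix (Fin (m + 1)) (Fin (m + 1)) (MvPolynomial (Fin 2) ℚ)) :
    MvPolynomial (Fin (m + 2)) ℚ :=
  ∑ j, ∑ k, MvPolynomial.aeval ![MvPolynomial.X 0, MvPolynomial.X 1] (A j k) *
    ((Fin.cons 1 (fun i => MvPolynomial.X i.succ.succ) :
        Fin (m + 1) → MvPolynomial (Fin (m + 2)) ℚ) j *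
      (Fin.cons 1 (fun i => MvPolynomial.X i.succ.succ) :
        Fin (m + 1) → MvPolynomial (Fin (m + 2)) ℚ) k)

lemma locIdeal_eq {K L : Type} [Field K] [NontriviallyNormedField L] [CompleteSpace L]
    [CharZero L] (σ : K →+* L) {τ : Type} [Finite τ] (D : Set (τ → K)) (x : τ → L) :
    LocIdeal σ D x = (IA σ D x : Set (MvPolynomial τ K)) := by
  ext f
  exact mem_IA_iff.symm

lemma finite_iff {K L : Type} [Field K] [NontriviallyNormedField L] [CompleteSpace L]
    [CharZero L] (σ : K →+* L) {τ : Type} [Finite τ] (D : Set (τ → K)) (Ω : Set (τ → L)) :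
    (LocIdeal σ D '' Ω).Finite ↔ FAon σ D Ω := by
  have h1 : LocIdeal σ D '' Ω = (fun I : Ideal (MvPolynomial τ K) =>
      (I : Set (MvPolynomial τ K))) '' ((fun x : τ → L => IA σ D x) '' Ω) := by
    rw [Set.image_image]
    refine Set.image_congr fun x _ => ?_
    exact locIdeal_eq σ D x
  rw [h1]
  exact Set.finite_image_iff SetLike.coe_injective.injOn

/-- **Mazur's question: (1) descent along proper maps, (2) hypersurfaces of degree `e + 2` over `ℚ`
with a linear subspace of codimension two of multiplicity at least `e`.** -/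
theorem result :
    -- (1)
    (∀ (K : Type) [Field K] [NumberField K] (L : Type) [NontriviallyNormedField L]
      [CompleteSpace L] (σ : K →+* L), DenseRange σ →
      ∀ (ι : Type) [Finite ι] (τ : Type) [Finite τ] (κ : ι → Type) [∀ i, Finite (κ i)]
        (D : ∀ i, Set (τ ⊕ κ i → K)) (V : Set (τ → K)) (Ω : Set (τ → L)),
        -- `D i` consists of points of the product with a projective space
        (∀ i, ∀ y ∈ D i, (fun j => y (Sum.inr j)) ≠ 0) →
        (∀ i, ∀ y ∈ D i, ∀ c : K, c ≠ 0 →
          (Sum.elim (fun j => y (Sum.inl j)) (fun j => c * y (Sum.inr j)) : τ ⊕ κ i → K) ∈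
            D i) →
        -- `V` is the union of their projections
        (∀ v : τ → K, v ∈ V ↔ ∃ i, ∃ y ∈ D i, (fun j => y (Sum.inl j)) = v) →
        (∀ i, (LocIdeal σ (D i) ''
          {x | (fun j => x (Sum.inl j)) ∈ Ω ∧ (fun j => x (Sum.inr j)) ≠ 0}).Finite) →
        (LocIdeal σ V '' Ω).Finite) ∧
    -- (2)
    (∀ (L : Type) [NontriviallyNormedField L] [CompleteSpace L] (σ : ℚ →+* L), DenseRange σ →
      ∀ (m e : ℕ), 4 ≤ m → 1 ≤ e →
      ∀ A : Matrix (Fin (m + 1)) (Fin (m + 1)) (MvPolynomial (Fin 2) ℚ), A.IsSymm →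
        A.det ≠ 0 →
        (∀ j k, (A j k).IsHomogeneous
          (e + (if j = 0 then 1 else 0) + (if k = 0 then 1 else 0))) →
        {J : Set (MvPolynomial (Fin (m + 2)) ℚ) | ∃ x : Fin (m + 2) → L, x ≠ 0 ∧
          MvPolynomial.eval₂ σ x (form A) = 0 ∧
          J = {f : MvPolynomial (Fin (m + 2)) ℚ | ∃ U ∈ nhds x, ∀ y : Fin (m + 2) → ℚ, y ≠ 0 →
            MvPolynomial.eval y (form A) = 0 →
            (∃ c : L, c ≠ 0 ∧ (fun i => c * σ (y i)) ∈ U) →
            ∀ a : ℚ, MvPolynomial.eval (a • y) f = 0}}.Finite) := by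
  constructor
  · intro K _ _ L _ _ σ hσ ι _ τ _ κ _ D V Ω h1 h2 h3 h4
    have : CharZero L := charZero_of_injective_ringHom σ.injective
    have : ProperSpace L := Pool.Agent.W279.Tri.properSpace_of_denseRange σ hσ
    rw [finite_iff]
    exact prop_ K L σ ι τ κ D V Ω h1 h2 h3 fun i => (finite_iff σ (D i) _).1 (h4 i)
  · intro L _ _ σ hσ m e hm he A hAs hdet hA
    have : CharZero L := charZero_of_injective_ringHom σ.injective
    have : ProperSpace L := Pool.Agent.W279.Tri.properSpace_of_denseRange σ hσ
    refine (hyp_main near_ lift_ glob_ (alg_ cone_) (Pool.Agent.R847.QB.mat_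
      Pool.Agent.R847.QB.mey) σ hσ hm he A hAs hdet hA).subset ?_
    rintro _ ⟨x, hx, -, rfl⟩
    exact ⟨x, hx, rfl⟩

end Pool.Agent.Results.MP_f9f755_nt.ProperMaps
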