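import Pool.Agent.R847.QY.Diag2
import Pool.Agent.R847.QM.Near
import Pool.Agent.R847.QM.Lift
import Pool.Agent.R847.QM.Glob
import Pool.Agent.R847.QM.Cone
import Pool.Agent.R847.QM.Alg
import Pool.Agent.R847.QB.Line

/-!
# Mazur's question for quadric bundles of relative dimension at least three over ℚ (helper847)

`L` is a complete nontrivially normed field with a homomorphism `σ : ℚ →+* L` of dense range (so
`L` is the completion of `ℚ` at a place, real or `p`-adic). Let `A` be a symmetric `N × N` matrix,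
`N ≥ 5`, of forms `Aᵢⱼ` of degree `δ - mᵢ - mⱼ` over `ℚ` in `n` variables `T` (`Aᵢⱼ = 0` if this
number is negative), with `det A ≠ 0`. Let `X` be the divisor `Yᵗ A(T) Y = 0` of the projective bundle
`ℙ(𝒪(m₁) ⊕ ⋯ ⊕ 𝒪(m_N))` over `ℙⁿ⁻¹`, with the coordinates `(Y, T)` modulo
`(Yᵢ, Tⱼ) ∼ (c e^{mᵢ} Yᵢ, e Tⱼ)`. This is a quadric bundle of relative dimension `N - 2 ≥ 3` with
arbitrarily degenerate special fibres (`X` may be singular and reducible). The vertices of the
fibres are the points of `Z = {A(T) Y = 0} ⊆ X`.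

(1) If the ideals of the local Zariski closures of `Z(ℚ)` take only finitely many values, then
this is true for `X(ℚ)`. So Mazur's question for `X` reduces to the vertices.

(2) It is true for `X` if the base is the projective line (`n = 2`), and also if the discriminant
`det A(T) = 0` has only finitely many rational points in `ℙⁿ⁻¹`.

(3) It is true for `X : ∑ᵢ cᵢ ∏ⱼ ℓᵢⱼ(T) Yᵢ² = 0` with linear forms `ℓᵢⱼ`, for all `n`.

Since the vector bundles on `ℙ¹` are sums of line bundles, (2) applies to all quadric bundles of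
relative dimension at least three over `ℙ¹` with smooth generic fibre. Examples: hypersurfaces of
bidegree `(2, d)` in `ℙᴺ⁻¹ × ℙ¹` (`m = 0`), double covers `w² = q_T(Y)` of `ℙᴺ⁻² × ℙ¹` branched along
divisors of bidegree `(2, 2k)` (`m = (k, 0, …, 0)`, `δ = 2k`).

Idea of the proof. Let `(Y₀, T₀)` be a rational point of `X` outside `Z`, and take a line through
`T₀` in the base. For rational `T` on the line, close to `T₀` both in `L` and in `ℝ`, the fibre over
`T` has points close to `Y₀` over `L` and points over `ℝ`. By Meyer's theorem (proved in the files: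
a regular quadratic form over `ℚ` in at least five variables with a real zero has a rational zero)
it has a rational point, hence its rational points are dense in its `L`-points. So a polynomial
vanishing at the rational points of `X` close to `(Y₀, T₀)` vanishes on infinitely many fibres over
each line, and then on `X`.
-/

set_option autoImplicit false

namespace Pool.Agent.Results.MP_f9f755_nt.QuadricBundles

open Matrix Pool.Agent.R847.QM Pool.Agent.R847.QY
open Pool.Agent.Y720.MZ (FAon)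

/-- Let `V` be a set of pairs `(Y, T)` of rational vectors, which gives a set of rational points of
the projective bundle `ℙ(𝒪(m₁) ⊕ ⋯ ⊕ 𝒪(m_N))` over `ℙⁿ⁻¹` (the pairs with `Y ≠ 0` and `T ≠ 0` modulo
`(Yᵢ, Tⱼ) ∼ (c e^{mᵢ} Yᵢ, e Tⱼ)`). This is the ideal, in these coordinates, of the local Zariski
closure of `V` at the point `(x, s)`: the polynomials which vanish at all representatives of the
points of `V` in some neighbourhood of `(x, s)`. -/
def LocIdeal {L : Type} [NontriviallyNormedField L] (σ : ℚ →+* L) {N n : ℕ} (m : Fin N → ℕ)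
    (V : Set ((Fin N → ℚ) × (Fin n → ℚ))) (x : Fin N → L) (s : Fin n → L) :
    Set (MvPolynomial (Fin N ⊕ Fin n) ℚ) :=
  {f | ∃ U ∈ nhds (x, s), ∀ (Y : Fin N → ℚ) (T : Fin n → ℚ), Y ≠ 0 → T ≠ 0 → (Y, T) ∈ V →
    (∃ c e : L, c ≠ 0 ∧ e ≠ 0 ∧
      ((fun i => c * e ^ m i * σ (Y i)), fun j => e * σ (T j)) ∈ U) →
    ∀ a b : ℚ, MvPolynomial.eval
      (Sum.elim (fun i => a * b ^ m i * Y i) (fun j => b * T j)) f = 0}

/-- Mazur's finiteness: the local ideals at all points `(x, s)` with `x ≠ 0`, `s ≠ 0` take only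
finitely many values. -/
def Mazur {L : Type} [NontriviallyNormedField L] (σ : ℚ →+* L) {N n : ℕ} (m : Fin N → ℕ)
    (V : Set ((Fin N → ℚ) × (Fin n → ℚ))) : Prop :=
  {J | ∃ (x : Fin N → L) (s : Fin n → L), x ≠ 0 ∧ s ≠ 0 ∧ J = LocIdeal σ m V x s}.Finite

lemma mazur_iff {L : Type} [NontriviallyNormedField L] [CompleteSpace L] [CharZero L]
    (σ : ℚ →+* L) (hσ : DenseRange σ) {N n : ℕ} (m : Fin N → ℕ)
    (V : Set ((Fin N → ℚ) × (Fin n → ℚ)))
    (hV : ∀ (Y : Fin N → ℚ) (T : Fin n → ℚ), (Y, T) ∈ V → ∀ a b : ℚ, a ≠ 0 → b ≠ 0 →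
      ((fun i => a * b ^ m i * Y i), fun j => b * T j) ∈ V) :
    Mazur σ m V ↔ FAon σ {y : Fin N ⊕ Fin n → ℚ |
        ((fun i => y (Sum.inl i)), fun j => y (Sum.inr j)) ∈ V}
      {z : Fin N ⊕ Fin n → L | (fun i => z (Sum.inl i)) ≠ 0 ∧ (fun j => z (Sum.inr j)) ≠ 0} :=
  WJ_finite σ hσ m {y : Fin N ⊕ Fin n → ℚ |
    ((fun i => y (Sum.inl i)), fun j => y (Sum.inr j)) ∈ V}
    fun Y T h a b ha hb => hV Y T h a b ha hb

/-- **Mazur's question for quadric bundles of relative dimension at least three over `ℚ`.** -/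
theorem result :
    ∀ (L : Type) [NontriviallyNormedField L] [CompleteSpace L] (σ : ℚ →+* L), DenseRange σ →
    (∀ (n N δ : ℕ) (m : Fin N → ℕ) (A : Matrix (Fin N) (Fin N) (MvPolynomial (Fin n) ℚ)),
      5 ≤ N → A.IsSymm → A.det ≠ 0 →
      -- the entry `A i j` is a form of degree `δ - m i - m j`
      (∀ i j, A i j = 0 ∨ ∃ k, k + m i + m j = δ ∧ (A i j).IsHomogeneous k) →
      -- (1)
      (Mazur σ m {p | A.map (MvPolynomial.eval p.2) *ᵥ p.1 = 0} →
        Mazur σ m {p | p.1 ⬝ᵥ A.map (MvPolynomial.eval p.2) *ᵥ p.1 = 0}) ∧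
      -- (2)
      ((n = 2 ∨ ∃ B : Finset (Fin n → ℚ), ∀ T : Fin n → ℚ, T ≠ 0 →
          (A.map (MvPolynomial.eval T)).det = 0 → ∃ β ∈ B, ∃ c : ℚ, T = c • β) →
        Mazur σ m {p | p.1 ⬝ᵥ A.map (MvPolynomial.eval p.2) *ᵥ p.1 = 0})) ∧
    -- (3)
    (∀ (n N δ : ℕ) (m : Fin N → ℕ) (d : Fin N → ℕ), 5 ≤ N → (∀ i, d i + 2 * m i = δ) →
      ∀ (c : Fin N → ℚ) (l : ∀ i, Fin (d i) → Fin n → ℚ), (∀ i, c i ≠ 0) → (∀ i j, l i j ≠ 0) →
      Mazur σ m {p : (Fin N → ℚ) × (Fin n → ℚ) |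
        ∑ i, c i * (∏ j, ∑ k, l i j k * p.2 k) * p.1 i ^ 2 = 0}) := by
  intro L _ _ σ hσ
  have : CharZero L := charZero_of_injective_ringHom σ.injective
  have hALG := alg_ cone_
  have hMAT := Pool.Agent.R847.QB.mat_ Pool.Agent.R847.QB.mey
  refine ⟨?_, ?_⟩
  · intro n N δ m A hN hA hdet hhom
    have hw : WH m δ A := hhom
    have hS := mazur_iff σ hσ m {p : (Fin N → ℚ) × (Fin n → ℚ) |
      p.1 ⬝ᵥ A.map (MvPolynomial.eval p.2) *ᵥ p.1 = 0}
      fun Y T h a b _ _ => SS_wcone hw Y T h a b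
    have hZ := mazur_iff σ hσ m {p : (Fin N → ℚ) × (Fin n → ℚ) |
      A.map (MvPolynomial.eval p.2) *ᵥ p.1 = 0}
      fun Y T h a b _ hb => ZZ_wcone hw Y T h a b hb
    constructor
    · intro h
      exact hS.2 (transfer near_ lift_ glob_ hALG hMAT σ hσ hN A hA hdet _ (hZ.1 h))
    · intro h
      refine hS.2 (transfer near_ lift_ glob_ hALG hMAT σ hσ hN A hA hdet _ ?_)
      rcases h with rfl | ⟨B, hB⟩
      · obtain ⟨B, hB⟩ := disc2W hw hdet
        exact finDiscW σ hσ hw B hB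
      · exact finDiscW σ hσ hw B hB
  · intro n N δ m d hN hd c l hc hl
    have hw : WH m δ (DH c d l) := DH_WH c d l m δ hd
    have hS := mazur_iff σ hσ m {p : (Fin N → ℚ) × (Fin n → ℚ) |
      p.1 ⬝ᵥ (DH c d l).map (MvPolynomial.eval p.2) *ᵥ p.1 = 0}
      fun Y T h a b _ _ => SS_wcone hw Y T h a b
    have h1 := hS.2 (transfer near_ lift_ glob_ hALG hMAT σ hσ hN (DH c d l) (DH_symm c d l)
      (DH_det c hc d l hl) _ (FA_DH σ hσ c hc d l _))
    have e : {p : (Fin N → ℚ) × (Fin n → ℚ) |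
        p.1 ⬝ᵥ (DH c d l).map (MvPolynomial.eval p.2) *ᵥ p.1 = 0} =
        {p : (Fin N → ℚ) × (Fin n → ℚ) |
          ∑ i, c i * (∏ j, ∑ k, l i j k * p.2 k) * p.1 i ^ 2 = 0} := by
      ext p
      have h2 := qv_DH c d l p.2 p.1
      show p.1 ⬝ᵥ (DH c d l).map (MvPolynomial.eval p.2) *ᵥ p.1 = 0 ↔
        ∑ i, c i * (∏ j, ∑ k, l i j k * p.2 k) * p.1 i ^ 2 = 0
      rw [← h2]
      rfl
    rwa [e] at h1

end Pool.Agent.Results.MP_f9f755_nt.QuadricBundles
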